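import Mathlib

set_option autoImplicit false

/-!
# The multiplication of a semigroup algebra with one-dimensional irreducible representations

Let `S` be a finite semigroup with `q` elements such that every nonzero finite-dimensional
representation over `K` has a common eigenvector. Then either there are subspaces `U`, `V` of the
semigroup algebra with `U * V = 0` and `dim U + dim V > q`, or there are bases `a` and `b` of the
algebra with `a i * b j = 0` for `i < j`.
-/

namespace Pool.Agent.TH668.Rig

open Module

/-- Every nonzero finite-dimensional representation of the semigroup `S` over `K` has a common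
eigenvector; that is, all irreducible representations of `S` over `K` are one-dimensional. -/
def OneDim (K S : Type) [Field K] [Semigroup S] : Prop :=
  ∀ (V : Type) [AddCommGroup V] [Module K V] [FiniteDimensional K V] [Nontrivial V]
    (ρ : S → Module.End K V), (∀ s t, ρ (s * t) = ρ s * ρ t) →
      ∃ v : V, v ≠ 0 ∧ ∀ s, ∃ c : K, ρ s v = c • v

variable {K S : Type} [Field K] [Semigroup S]

/-- The same for representations of the opposite semigroup. -/
theorem anti (h : OneDim K S) : ∀ (n : ℕ) (V : Type) [AddCommGroup V] [Module K V]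
    [FiniteDimensional K V] [Nontrivial V] (ρ : S → Module.End K V), finrank K V = n →
    (∀ s t, ρ (s * t) = ρ t * ρ s) → ∃ v : V, v ≠ 0 ∧ ∀ s, ∃ c : K, ρ s v = c • v := by
  intro n
  induction n using Nat.strong_induction_on with
  | _ n ih =>
    intro V _ _ _ _ ρ hn hρ
    have hnt : Nontrivial (Dual K V) := inferInstance
    obtain ⟨φ, hφ, h1⟩ := h (Dual K V) (fun s => (ρ s).dualMap) (by
      intro s t
      change (ρ (s * t)).dualMap = (ρ s).dualMap ∘ₗ (ρ t).dualMap
      rw [LinearMap.dualMap_comp_dualMap, hρ]
      rfl)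
    have h2 : ∀ s, ∃ c : K, ∀ v, φ (ρ s v) = c * φ v := by
      intro s
      obtain ⟨c, hc⟩ := h1 s
      refine ⟨c, fun v => ?_⟩
      have := LinearMap.congr_fun hc v
      simpa using this
    by_cases hN : LinearMap.ker φ = ⊥
    · obtain ⟨v, hv⟩ := exists_ne (0 : V)
      refine ⟨v, hv, fun s => ?_⟩
      obtain ⟨c, hc⟩ := h2 s
      refine ⟨c, ?_⟩
      have h3 : ρ s v - c • v ∈ LinearMap.ker φ := by
        rw [LinearMap.mem_ker, map_sub, map_smul, hc, smul_eq_mul, sub_self]
      rw [hN, Submodule.mem_bot] at h3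
      exact sub_eq_zero.1 h3
    · have hNT : LinearMap.ker φ ≠ ⊤ := fun h0 => hφ (LinearMap.ker_eq_top.1 h0)
      have hlt : finrank K (LinearMap.ker φ) < n := by
        rw [← hn]
        exact Submodule.finrank_lt hNT
      have hinv : ∀ s, ∀ v ∈ LinearMap.ker φ, ρ s v ∈ LinearMap.ker φ := by
        intro s v hv
        obtain ⟨c, hc⟩ := h2 s
        rw [LinearMap.mem_ker] at hv ⊢
        rw [hc, hv, mul_zero]
      have hnt' : Nontrivial (LinearMap.ker φ) := (Submodule.nontrivial_iff_ne_bot).2 hN
      obtain ⟨v, hv, h3⟩ := ih _ hlt (LinearMap.ker φ)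
        (fun s => (ρ s).restrict (hinv s)) rfl (by
          intro s t
          ext v
          simp [hρ])
      refine ⟨v.1, fun h0 => hv (Subtype.ext h0), fun s => ?_⟩
      obtain ⟨c, hc⟩ := h3 s
      exact ⟨c, by simpa using congrArg Subtype.val hc⟩

/-- Commutative semigroups, over an algebraically closed field. -/
theorem oneDim_of_comm [IsAlgClosed K] (hc : ∀ s t : S, s * t = t * s) : OneDim K S := by
  have key : ∀ (n : ℕ) (V : Type) [AddCommGroup V] [Module K V]
    [FiniteDimensional K V] [Nontrivial V] (ρ : S → Module.End K V), finrank K V = n →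
    (∀ s t, ρ (s * t) = ρ s * ρ t) → ∃ v : V, v ≠ 0 ∧ ∀ s, ∃ c : K, ρ s v = c • v := by
    intro n
    induction n using Nat.strong_induction_on with
    | _ n ih =>
      intro V _ _ _ _ ρ hn hρ
      by_cases hs : ∀ s, ∃ c : K, ρ s = c • 1
      · obtain ⟨v, hv⟩ := exists_ne (0 : V)
        refine ⟨v, hv, fun s => ?_⟩
        obtain ⟨c, hc'⟩ := hs s
        exact ⟨c, by rw [hc']; rfl⟩
      · push Not at hs
        obtain ⟨s0, hs0⟩ := hs
        obtain ⟨μ, hμ⟩ := Module.End.exists_eigenvalue (ρ s0)
        set E := Module.End.eigenspace (ρ s0) μ with hE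
        have hEb : E ≠ ⊥ := hμ
        have hET : E ≠ ⊤ := by
          intro h0
          refine hs0 μ ?_
          ext v
          have : v ∈ E := by rw [h0]; trivial
          rw [hE, Module.End.mem_eigenspace_iff] at this
          simpa using this
        have hlt : finrank K E < n := by
          rw [← hn]
          exact Submodule.finrank_lt hET
        have hinv : ∀ s, ∀ v ∈ E, ρ s v ∈ E := by
          intro s v hv
          rw [hE, Module.End.mem_eigenspace_iff] at hv ⊢
          have e1 : ρ s0 (ρ s v) = ρ s (ρ s0 v) := by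
            have := hρ s0 s
            rw [hc s0 s, hρ] at this
            have h2 := LinearMap.congr_fun this v
            simpa using h2.symm
          rw [e1, hv, map_smul]
        have hnt' : Nontrivial E := (Submodule.nontrivial_iff_ne_bot).2 hEb
        obtain ⟨v, hv, h3⟩ := ih _ hlt E
          (fun s => (ρ s).restrict (hinv s)) rfl (by
            intro s t
            ext v
            simp [hρ])
        refine ⟨v.1, fun h0 => hv (Subtype.ext h0), fun s => ?_⟩
        obtain ⟨c, hc'⟩ := h3 s
        exact ⟨c, by simpa using congrArg Subtype.val hc'⟩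
  intro V _ _ _ _ ρ hρ
  exact key _ V ρ rfl hρ

/-! ### The semigroup algebra -/

/-- Left multiplication. -/
noncomputable def lam (K : Type) [Field K] (s : S) : Module.End K (S →₀ K) :=
  Finsupp.lmapDomain K K (fun t => s * t)

/-- Right multiplication. -/
noncomputable def rho (K : Type) [Field K] (s : S) : Module.End K (S →₀ K) :=
  Finsupp.lmapDomain K K (fun t => t * s)

/-- The product of the semigroup algebra. -/
noncomputable def B (K S : Type) [Field K] [Semigroup S] :
    (S →₀ K) →ₗ[K] (S →₀ K) →ₗ[K] (S →₀ K) :=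
  Finsupp.linearCombination K (lam K : S → Module.End K (S →₀ K))

theorem B_single (s : S) (b : S →₀ K) : B K S (Finsupp.single s 1) b = lam K s b := by
  simp [B]

theorem lam_single (s t : S) (c : K) :
    lam K s (Finsupp.single t c) = Finsupp.single (s * t) c := by
  simp [lam]

theorem rho_single (s t : S) (c : K) :
    rho K s (Finsupp.single t c) = Finsupp.single (t * s) c := by
  simp [rho]

theorem lam_mul (s t : S) : lam K (s * t) = lam K s * lam K t := by
  refine Finsupp.lhom_ext' fun u => LinearMap.ext_ring ?_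
  simp [lam_single, mul_assoc]

theorem rho_mul (s t : S) : rho K (s * t) = rho K t * rho K s := by
  refine Finsupp.lhom_ext' fun u => LinearMap.ext_ring ?_
  simp [rho_single, mul_assoc]

theorem lam_rho (s t : S) : lam K s * rho K t = rho K t * lam K s := by
  refine Finsupp.lhom_ext' fun u => LinearMap.ext_ring ?_
  simp [rho_single, lam_single, mul_assoc]

theorem B_single' (s : S) (c : K) (b : S →₀ K) :
    B K S (Finsupp.single s c) b = c • lam K s b := by
  simp [B]

theorem B_lam (s : S) (a b : S →₀ K) : B K S (lam K s a) b = lam K s (B K S a b) := by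
  induction a using Finsupp.induction_linear with
  | zero => simp
  | add f g hf hg => rw [map_add, map_add, map_add, LinearMap.add_apply, LinearMap.add_apply,
      map_add, hf, hg]
  | single t c =>
    rw [lam_single, B_single', B_single', lam_mul, map_smul]
    rfl

theorem B_rho (s : S) (a b : S →₀ K) : B K S (rho K s a) b = B K S a (lam K s b) := by
  induction a using Finsupp.induction_linear with
  | zero => simp
  | add f g hf hg => rw [map_add, map_add, map_add, LinearMap.add_apply, LinearMap.add_apply,
      hf, hg]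
  | single t c =>
    rw [rho_single, B_single', B_single', lam_mul]
    rfl

/-- The right annihilator. -/
noncomputable def rann (I : Submodule K (S →₀ K)) : Submodule K (S →₀ K) where
  carrier := {b | ∀ a ∈ I, B K S a b = 0}
  add_mem' := by
    intro x y hx hy a ha
    rw [map_add, hx a ha, hy a ha, add_zero]
  zero_mem' := fun a _ => by rw [map_zero]
  smul_mem' := by
    intro c x hx a ha
    rw [map_smul, hx a ha, smul_zero]

theorem mem_rann {I : Submodule K (S →₀ K)} {b : S →₀ K} :
    b ∈ rann I ↔ ∀ a ∈ I, B K S a b = 0 := Iff.rfl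

/-- Left eigenvectors. -/
noncomputable def eig (ψ : S → K) : Submodule K (S →₀ K) where
  carrier := {w | ∀ s, lam K s w = ψ s • w}
  add_mem' := by
    intro x y hx hy s
    rw [map_add, hx s, hy s, smul_add]
  zero_mem' := fun s => by rw [map_zero, smul_zero]
  smul_mem' := by
    intro c x hx s
    rw [map_smul, hx s, smul_comm]

/-- Two-sided ideals. -/
def Inv (I : Submodule K (S →₀ K)) : Prop :=
  (∀ s, ∀ a ∈ I, lam K s a ∈ I) ∧ ∀ s, ∀ a ∈ I, rho K s a ∈ I

variable [Fintype S]

theorem exists_eig (h : OneDim K S) (I : Submodule K (S →₀ K)) (hI : Inv I) (hT : I ≠ ⊤) :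
    ∃ v, v ∉ I ∧ ∃ ψ χ : S → K, ∀ s, lam K s v - ψ s • v ∈ I ∧ rho K s v - χ s • v ∈ I := by
  have hnt : Nontrivial ((S →₀ K) ⧸ I) := Submodule.Quotient.nontrivial_iff.2 hT
  let L : S → Module.End K ((S →₀ K) ⧸ I) := fun s => I.mapQ I (lam K s) (hI.1 s)
  let R : S → Module.End K ((S →₀ K) ⧸ I) := fun s => I.mapQ I (rho K s) (hI.2 s)
  have hLa : ∀ s a, L s (I.mkQ a) = I.mkQ (lam K s a) := fun s a => rfl
  have hRa : ∀ s a, R s (I.mkQ a) = I.mkQ (rho K s a) := fun s a => rfl
  have hL : ∀ s t, L (s * t) = L s * L t := by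
    intro s t
    refine LinearMap.ext fun w => ?_
    obtain ⟨a, rfl⟩ := I.mkQ_surjective w
    change L (s * t) (I.mkQ a) = L s (L t (I.mkQ a))
    rw [hLa, hLa, hLa, lam_mul]
    rfl
  have hR : ∀ s t, R (s * t) = R t * R s := by
    intro s t
    refine LinearMap.ext fun w => ?_
    obtain ⟨a, rfl⟩ := I.mkQ_surjective w
    change R (s * t) (I.mkQ a) = R t (R s (I.mkQ a))
    rw [hRa, hRa, hRa, rho_mul]
    rfl
  have hLR : ∀ s t w, L s (R t w) = R t (L s w) := by
    intro s t w
    obtain ⟨a, rfl⟩ := I.mkQ_surjective w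
    rw [hRa, hLa, hLa, hRa]
    have := LinearMap.congr_fun (lam_rho (K := K) s t) a
    exact congrArg _ this
  obtain ⟨w, hw, hw'⟩ := h _ L hL
  choose ψ hψ using hw'
  let E : Submodule K ((S →₀ K) ⧸ I) :=
    { carrier := {w | ∀ s, L s w = ψ s • w}
      add_mem' := by
        intro x y hx hy s
        rw [map_add, hx s, hy s, smul_add]
      zero_mem' := fun s => by rw [map_zero, smul_zero]
      smul_mem' := by
        intro c x hx s
        rw [map_smul, hx s, smul_comm] }
  have hE : ∀ x, x ∈ E ↔ ∀ s, L s x = ψ s • x := fun x => Iff.rfl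
  have hEn : Nontrivial E := by
    refine (Submodule.nontrivial_iff_ne_bot).2 fun h0 => hw ?_
    have : w ∈ E := (hE w).2 hψ
    rwa [h0, Submodule.mem_bot] at this
  have hinv : ∀ t, ∀ x ∈ E, R t x ∈ E := by
    intro t x hx
    rw [hE] at hx ⊢
    intro s
    rw [hLR, hx s, map_smul]
  obtain ⟨u, hu, hu'⟩ := anti h _ E (fun t => (R t).restrict (hinv t)) rfl (by
    intro s t
    ext v
    simp [hR])
  choose χ hχ using hu'
  obtain ⟨v, hv⟩ := I.mkQ_surjective u.1
  refine ⟨v, fun h0 => hu (Subtype.ext ?_), ψ, χ, fun s => ⟨?_, ?_⟩⟩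
  · rw [← hv]
    exact (Submodule.Quotient.mk_eq_zero I).2 h0
  · rw [← Submodule.Quotient.mk_eq_zero, ← Submodule.mkQ_apply, map_sub, map_smul, ← hLa, hv,
      (hE u.1).1 u.2 s, sub_self]
  · rw [← Submodule.Quotient.mk_eq_zero, ← Submodule.mkQ_apply, map_sub, map_smul, ← hRa, hv]
    have := congrArg Subtype.val (hχ s)
    rw [sub_eq_zero]
    simpa using this

/-- There are large subspaces with product zero. -/
def Unst (K S : Type) [Field K] [Semigroup S] [Fintype S] : Prop :=
  ∃ U V : Submodule K (S →₀ K), (∀ u ∈ U, ∀ v ∈ V, B K S u v = 0) ∧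
    Fintype.card S < finrank K U + finrank K V

theorem eig_le (h : ¬ Unst K S) (ψ : S → K) : finrank K (eig ψ) ≤ 1 := by
  by_contra hc
  push Not at hc
  refine h ⟨LinearMap.ker (Finsupp.linearCombination K ψ), eig ψ, ?_, ?_⟩
  · intro u hu v hv
    rw [LinearMap.mem_ker, Finsupp.linearCombination_apply] at hu
    have : B K S u v = (u.sum fun s c => c • ψ s) • v := by
      rw [B, Finsupp.linearCombination_apply, Finsupp.sum, Finsupp.sum, LinearMap.sum_apply,
        Finset.sum_smul]
      refine Finset.sum_congr rfl fun s _ => ?_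
      rw [LinearMap.smul_apply, hv s, smul_smul, smul_eq_mul]
    rw [this, hu, zero_smul]
  · have h1 := LinearMap.finrank_range_add_finrank_ker (Finsupp.linearCombination K ψ)
    have h2 : finrank K (LinearMap.range (Finsupp.linearCombination K ψ)) ≤ 1 := by
      have := Submodule.finrank_le (LinearMap.range (Finsupp.linearCombination K ψ))
      rwa [finrank_self] at this
    have h3 : finrank K (S →₀ K) = Fintype.card S := by simp
    omega

theorem chain (h : OneDim K S) (hU : ¬ Unst K S) : ∀ k ≤ Fintype.card S,
    ∃ (a b : Fin k → (S →₀ K)) (I : Submodule K (S →₀ K)), Inv I ∧ finrank K I = k ∧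
      (∀ i, a i ∈ I) ∧ LinearIndependent K a ∧ finrank K (rann I) + k = Fintype.card S ∧
      (∀ c : Fin k → K, ∑ j, c j • b j ∈ rann I → c = 0) ∧
      ∀ i j, i < j → B K S (a i) (b j) = 0 := by
  have h3 : finrank K (S →₀ K) = Fintype.card S := by simp
  intro k
  induction k with
  | zero =>
    intro _
    refine ⟨Fin.elim0, Fin.elim0, ⊥, ⟨?_, ?_⟩, by simp, fun i => i.elim0, linearIndependent_empty_type,
      ?_, fun c _ => by ext i; exact i.elim0, fun i => i.elim0⟩
    · intro s a ha
      rw [Submodule.mem_bot] at ha ⊢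
      rw [ha, map_zero]
    · intro s a ha
      rw [Submodule.mem_bot] at ha ⊢
      rw [ha, map_zero]
    · have : rann (⊥ : Submodule K (S →₀ K)) = ⊤ := by
        rw [eq_top_iff]
        intro b _ a ha
        rw [Submodule.mem_bot] at ha
        rw [ha, map_zero]
        rfl
      rw [this, finrank_top, h3, add_zero]
  | succ k ih =>
    intro hk
    obtain ⟨a, b, I, hI, hfI, haI, hla, hfr, hb, hab⟩ := ih (by omega)
    have hT : I ≠ ⊤ := by
      rintro rfl
      rw [finrank_top, h3] at hfI
      omega
    obtain ⟨v, hv, ψ, χ, hvI⟩ := exists_eig h I hI hT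
    set I' : Submodule K (S →₀ K) := I ⊔ K ∙ v with hI'
    have hII' : I ≤ I' := le_sup_left
    have hvI' : v ∈ I' := Submodule.mem_sup_right (Submodule.mem_span_singleton_self v)
    have hv0 : v ≠ 0 := fun h0 => hv (h0 ▸ I.zero_mem)
    have hmem : ∀ x, x ∈ I' ↔ ∃ y ∈ I, ∃ c : K, x = y + c • v := by
      intro x
      rw [hI', Submodule.mem_sup]
      constructor
      · rintro ⟨y, hy, z, hz, rfl⟩
        obtain ⟨c, rfl⟩ := Submodule.mem_span_singleton.1 hz
        exact ⟨y, hy, c, rfl⟩
      · rintro ⟨y, hy, c, rfl⟩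
        exact ⟨y, hy, c • v, Submodule.mem_span_singleton.2 ⟨c, rfl⟩, rfl⟩
    have hinv : Inv I' := by
      constructor
      · intro s x hx
        obtain ⟨y, hy, c, rfl⟩ := (hmem x).1 hx
        rw [map_add, map_smul]
        refine I'.add_mem (hII' (hI.1 s y hy)) (I'.smul_mem c ?_)
        have : lam K s v = (lam K s v - ψ s • v) + ψ s • v := by abel
        rw [this]
        exact I'.add_mem (hII' (hvI s).1) (I'.smul_mem _ hvI')
      · intro s x hx
        obtain ⟨y, hy, c, rfl⟩ := (hmem x).1 hx
        rw [map_add, map_smul]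
        refine I'.add_mem (hII' (hI.2 s y hy)) (I'.smul_mem c ?_)
        have : rho K s v = (rho K s v - χ s • v) + χ s • v := by abel
        rw [this]
        exact I'.add_mem (hII' (hvI s).2) (I'.smul_mem _ hvI')
    have hinf : I ⊓ K ∙ v = ⊥ := by
      rw [eq_bot_iff]
      rintro x ⟨hx1, hx2⟩
      obtain ⟨c, rfl⟩ := Submodule.mem_span_singleton.1 hx2
      rw [Submodule.mem_bot]
      by_contra hne
      have hc : c ≠ 0 := fun h0 => hne (by rw [h0, zero_smul])
      have h5 : v = c⁻¹ • (c • v) := by rw [smul_smul, inv_mul_cancel₀ hc, one_smul]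
      exact hv (h5 ▸ I.smul_mem _ hx1)
    have hfI' : finrank K I' = k + 1 := by
      have h5 := Submodule.finrank_sup_add_finrank_inf_eq I (K ∙ v)
      rw [hinf, finrank_bot, finrank_span_singleton hv0, hfI, add_zero] at h5
      exact h5
    have hrle : rann I' ≤ rann I := fun x hx a ha => hx a (hII' ha)
    have hr1 : finrank K (rann I) ≤ finrank K (rann I') + 1 := by
      have hg : ∀ x : rann I, B K S v x.1 ∈ eig ψ := by
        intro x s
        rw [← B_lam]
        have : lam K s v = (lam K s v - ψ s • v) + ψ s • v := by abel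
        rw [this, map_add, LinearMap.add_apply, x.2 _ (hvI s).1, zero_add, map_smul,
          LinearMap.smul_apply]
      let g : rann I →ₗ[K] eig (K := K) ψ :=
        LinearMap.codRestrict (eig ψ) ((B K S v).domRestrict (rann I)) hg
      have h5 := LinearMap.finrank_range_add_finrank_ker (K := K) (V := rann I)
        (V₂ := eig (K := K) ψ) g
      have h6 : finrank K (LinearMap.range g) ≤ 1 :=
        (Submodule.finrank_le _).trans (eig_le hU ψ)
      have h7 : finrank K (LinearMap.ker g) ≤ finrank K (rann I') := by
        have h8 : (LinearMap.ker g).map (rann I).subtype ≤ rann I' := by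
          rintro _ ⟨x, hx, rfl⟩
          have hx' : g x = 0 := hx
          have hx'' : B K S v x.1 = 0 := congrArg Subtype.val hx'
          intro y hy
          obtain ⟨z, hz, c, rfl⟩ := (hmem y).1 hy
          rw [map_add, map_smul, LinearMap.add_apply, LinearMap.smul_apply]
          have e1 : B K S z ((rann I).subtype x) = 0 := x.2 z hz
          have e2 : B K S v ((rann I).subtype x) = 0 := hx''
          rw [e1, e2, smul_zero, add_zero]
        have h9 := Submodule.finrank_mono h8
        rwa [Submodule.finrank_map_subtype_eq] at h9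
      omega
    have hr2 : k + 1 + finrank K (rann I') ≤ Fintype.card S := by
      by_contra hlt
      push Not at hlt
      exact hU ⟨I', rann I', fun u hu v hv => hv u hu, by rw [hfI']; exact hlt⟩
    have hr3 : finrank K (rann I') + (k + 1) = Fintype.card S := by omega
    obtain ⟨w, hw, hw'⟩ : ∃ w ∈ rann I, w ∉ rann I' := by
      refine SetLike.exists_of_lt (lt_of_le_of_ne hrle fun h0 => ?_)
      rw [h0] at hr3
      omega
    refine ⟨Fin.snoc a v, Fin.snoc b w, I', hinv, hfI', ?_, ?_, hr3, ?_, ?_⟩
    · intro i
      refine Fin.lastCases ?_ (fun i => ?_) i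
      · rw [Fin.snoc_last]
        exact hvI'
      · rw [Fin.snoc_castSucc]
        exact hII' (haI i)
    · rw [linearIndependent_finSnoc]
      refine ⟨hla, fun h0 => hv ?_⟩
      refine (Submodule.span_le.2 ?_ : Submodule.span K (Set.range a) ≤ I) h0
      rintro _ ⟨i, rfl⟩
      exact haI i
    · intro c hc
      rw [Fin.sum_univ_castSucc] at hc
      simp only [Fin.snoc_castSucc, Fin.snoc_last] at hc
      have h5 : (fun i => c (Fin.castSucc i)) = 0 := by
        refine hb _ ?_
        have h6 := (rann I).sub_mem (hrle hc) ((rann I).smul_mem (c (Fin.last k)) hw)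
        rwa [add_sub_cancel_right] at h6
      have h6 : ∀ i : Fin k, c (Fin.castSucc i) = 0 := fun i => congrFun h5 i
      have h7 : c (Fin.last k) = 0 := by
        by_contra hne
        simp only [h6, zero_smul, Finset.sum_const_zero, zero_add] at hc
        refine hw' ?_
        have h8 := (rann I').smul_mem (c (Fin.last k))⁻¹ hc
        rwa [smul_smul, inv_mul_cancel₀ hne, one_smul] at h8
      funext i
      refine Fin.lastCases ?_ (fun i => ?_) i
      · exact h7
      · exact h6 i
    · intro i j hij
      refine Fin.lastCases (fun hij => ?_) (fun i hij => ?_) i hij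
      · exact absurd hij (not_lt.2 (Fin.le_last j))
      · refine Fin.lastCases (fun hij => ?_) (fun j hij => ?_) j hij
        · rw [Fin.snoc_castSucc, Fin.snoc_last]
          exact hw _ (haI i)
        · rw [Fin.snoc_castSucc, Fin.snoc_castSucc]
          exact hab i j (Fin.castSucc_lt_castSucc_iff.1 hij)

/-- **The dichotomy.** -/
theorem dichotomy (h : OneDim K S) : Unst K S ∨
    ∃ a b : Fin (Fintype.card S) → (S →₀ K), LinearIndependent K a ∧ LinearIndependent K b ∧
      ∀ i j, i < j → B K S (a i) (b j) = 0 := by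
  by_cases hU : Unst K S
  · exact Or.inl hU
  · obtain ⟨a, b, I, -, -, -, ha, -, hb, hab⟩ := chain h hU _ le_rfl
    refine Or.inr ⟨a, b, ha, ?_, hab⟩
    rw [Fintype.linearIndependent_iff]
    intro c hc i
    exact congrFun (hb c (by rw [hc]; exact Submodule.zero_mem _)) i

end Pool.Agent.TH668.Rig
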