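import Mathlib

set_option autoImplicit false

/-!
# Every square matrix is the product of a permutation matrix, a lower and an upper triangular matrix
-/

namespace Pool.Agent.TH668.Rig

open Matrix Finset

variable {K : Type*} [Field K]

/-- The block step of the elimination. -/
theorem plu_step {q : ℕ} (B : Matrix (Fin (q + 1)) (Fin (q + 1)) K) (c : Fin q → K) (d : K)
    (hd : d = 1)
    (h0 : ∀ i, B (Fin.succ i) 0 = c i * B 0 0)
    (ih : ∃ (σ : Equiv.Perm (Fin q)) (L U : Matrix (Fin q) (Fin q) K),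
      (∀ i j, i < j → L i j = 0) ∧ (∀ i j, j < i → U i j = 0) ∧
      (Matrix.of fun i j : Fin q => B (Fin.succ i) (Fin.succ j) - c i * B 0 (Fin.succ j)).submatrix
        σ id = L * U) :
    ∃ (σ : Equiv.Perm (Fin (q + 1))) (L U : Matrix (Fin (q + 1)) (Fin (q + 1)) K),
      (∀ i j, i < j → L i j = 0) ∧ (∀ i j, j < i → U i j = 0) ∧ B.submatrix σ id = L * U := by
  obtain ⟨σ, L, U, hL, hU, e⟩ := ih
  let σ' : Equiv.Perm (Fin (q + 1)) :=
    { toFun := Fin.cases 0 (fun i => Fin.succ (σ i))
      invFun := Fin.cases 0 (fun i => Fin.succ (σ.symm i))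
      left_inv := by intro x; refine Fin.cases ?_ (fun i => ?_) x <;> simp
      right_inv := by intro x; refine Fin.cases ?_ (fun i => ?_) x <;> simp }
  have hσ0 : σ' 0 = 0 := rfl
  have hσs : ∀ i, σ' (Fin.succ i) = Fin.succ (σ i) := fun i => rfl
  refine ⟨σ', Matrix.of fun i j => Fin.cases (Fin.cases d (fun _ => 0) j)
      (fun i' => Fin.cases (c (σ i')) (fun j' => L i' j') j) i,
    Matrix.of fun i j => Fin.cases (B 0 j) (fun i' => Fin.cases 0 (fun j' => U i' j') j) i,
    ?_, ?_, ?_⟩
  · intro i j hij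
    refine Fin.cases (fun hij => ?_) (fun i' hij => ?_) i hij
    · refine Fin.cases (fun hij => ?_) (fun j' hij => ?_) j hij
      · exact absurd hij (lt_irrefl _)
      · simp
    · refine Fin.cases (fun hij => ?_) (fun j' hij => ?_) j hij
      · exact absurd hij (Fin.not_lt_zero _)
      · simpa using hL i' j' (Fin.succ_lt_succ_iff.1 hij)
  · intro i j hij
    refine Fin.cases (fun hij => ?_) (fun i' hij => ?_) i hij
    · exact absurd hij (Fin.not_lt_zero _)
    · refine Fin.cases (fun hij => ?_) (fun j' hij => ?_) j hij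
      · simp
      · simpa using hU i' j' (Fin.succ_lt_succ_iff.1 hij)
  · ext i j
    rw [Matrix.submatrix_apply, Matrix.mul_apply, Fin.sum_univ_succ]
    refine Fin.cases ?_ (fun i' => ?_) i
    · rw [hσ0]
      simp [hd]
    · rw [hσs]
      refine Fin.cases ?_ (fun j' => ?_) j
      · simp only [Matrix.of_apply, Fin.cases_succ, Fin.cases_zero, id_eq, mul_zero,
          Finset.sum_const_zero, add_zero]
        exact h0 (σ i')
      · have e1 := congrFun (congrFun e i') j'
        rw [Matrix.submatrix_apply, Matrix.mul_apply, Matrix.of_apply] at e1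
        simp only [Matrix.of_apply, Fin.cases_succ, Fin.cases_zero, id_eq] at e1 ⊢
        rw [← e1]
        ring

theorem exists_plu : ∀ (q : ℕ) (A : Matrix (Fin q) (Fin q) K),
    ∃ (σ : Equiv.Perm (Fin q)) (L U : Matrix (Fin q) (Fin q) K),
      (∀ i j, i < j → L i j = 0) ∧ (∀ i j, j < i → U i j = 0) ∧ A.submatrix σ id = L * U := by
  intro q
  induction q with
  | zero =>
    intro A
    exact ⟨1, 0, 0, fun i => i.elim0, fun i => i.elim0, by ext i; exact i.elim0⟩
  | succ q ih =>
    intro A
    by_cases h : ∃ i0, A i0 0 ≠ 0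
    · obtain ⟨i0, hi0⟩ := h
      let τ : Equiv.Perm (Fin (q + 1)) := Equiv.swap 0 i0
      have h1 : A.submatrix τ id 0 0 ≠ 0 := by
        simpa [τ] using hi0
      obtain ⟨σ, L, U, hL, hU, e⟩ := plu_step (A.submatrix τ id)
        (fun i => A.submatrix τ id (Fin.succ i) 0 / A.submatrix τ id 0 0) 1 rfl
        (fun i => (div_mul_cancel₀ _ h1).symm) (ih _)
      refine ⟨σ.trans τ, L, U, hL, hU, ?_⟩
      rw [← e]
      rfl
    · push Not at h
      exact plu_step A (fun _ => 0) 1 rfl (fun i => by rw [h, zero_mul]) (ih _)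

end Pool.Agent.TH668.Rig
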