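import Pool.Agent.W967.Rig.Desc
import Pool.Agent.TH668.Rig.Plu

set_option autoImplicit false

/-!
# The matrices `f (x ∘ y)` for an operation with large triangular or zero patterns
-/

namespace Pool.Agent.TH668.Rig

open Matrix Finset Kronecker
open Pool.Agent.W966.Kron (tens tens_mul tens_transpose)
open Pool.Agent.W967.Rig

variable {K : Type*} [Field K] {q n : ℕ}

/-- The `i`-th row of `P` times the `j`-th row of `Q` is zero in the algebra of the operation
`m`. -/
def Rel (m : Fin q → Fin q → Fin q) (P Q : Matrix (Fin q) (Fin q) K) (i j : Fin q) : Prop :=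
  ∀ z, ∑ x, ∑ y, (if m x y = z then P i x * Q j y else 0) = 0

/-- The matrix `f (x ∘ y)`. -/
def MF (m : Fin q → Fin q → Fin q) (f : (Fin n → Fin q) → K) :
    Matrix (Fin n → Fin q) (Fin n → Fin q) K :=
  Matrix.of fun x y => f (fun k => m (x k) (y k))

theorem conj_apply (m : Fin q → Fin q → Fin q) (P Q : Matrix (Fin q) (Fin q) K)
    (f : (Fin n → Fin q) → K) (i j : Fin n → Fin q) :
    (tens (fun _ : Fin n => P) * MF m f * (tens (fun _ : Fin n => Q))ᵀ) i j =
      ∑ z : Fin n → Fin q, f z * ∏ k, ∑ x, ∑ y, (if m x y = z k then P (i k) x * Q (j k) y else 0)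
      := by
  have h1 : ∀ z : Fin n → Fin q,
      ∏ k, ∑ x, ∑ y, (if m x y = z k then P (i k) x * Q (j k) y else 0) =
      ∑ x : Fin n → Fin q, ∑ y : Fin n → Fin q,
        ∏ k, (if m (x k) (y k) = z k then P (i k) (x k) * Q (j k) (y k) else 0) := by
    intro z
    rw [Finset.prod_univ_sum, Fintype.piFinset_univ]
    refine Finset.sum_congr rfl fun x _ => ?_
    rw [Finset.prod_univ_sum, Fintype.piFinset_univ]
  have h2 : ∀ x y z : Fin n → Fin q,
      ∏ k, (if m (x k) (y k) = z k then P (i k) (x k) * Q (j k) (y k) else 0) =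
      if (fun k => m (x k) (y k)) = z then
        (∏ k, P (i k) (x k)) * ∏ k, Q (j k) (y k) else 0 := by
    intro x y z
    by_cases h : (fun k => m (x k) (y k)) = z
    · rw [if_pos h, ← Finset.prod_mul_distrib]
      refine Finset.prod_congr rfl fun k _ => ?_
      rw [if_pos (congrFun h k)]
    · rw [if_neg h]
      obtain ⟨k, hk⟩ := Function.ne_iff.1 h
      exact Finset.prod_eq_zero (Finset.mem_univ k) (if_neg hk)
  simp only [h1, h2]
  simp only [Finset.mul_sum]
  rw [Finset.sum_comm]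
  rw [Matrix.mul_apply]
  simp only [Matrix.mul_apply, Matrix.transpose_apply, MF, Matrix.of_apply, tens,
    Finset.sum_mul]
  rw [Finset.sum_comm]
  refine Finset.sum_congr rfl fun x _ => ?_
  rw [Finset.sum_comm]
  refine Finset.sum_congr rfl fun y _ => ?_
  rw [Finset.sum_eq_single (fun k => m (x k) (y k))]
  · rw [if_pos rfl]
    ring
  · intro z _ hz
    rw [if_neg (Ne.symm hz), mul_zero]
  · intro h
    exact absurd (Finset.mem_univ _) h

theorem conj_zero (m : Fin q → Fin q → Fin q) (P Q : Matrix (Fin q) (Fin q) K)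
    (f : (Fin n → Fin q) → K) (i j : Fin n → Fin q) (h : ∃ k, Rel m P Q (i k) (j k)) :
    (tens (fun _ : Fin n => P) * MF m f * (tens (fun _ : Fin n => Q))ᵀ) i j = 0 := by
  rw [conj_apply]
  obtain ⟨k, hk⟩ := h
  refine Finset.sum_eq_zero fun z _ => ?_
  rw [Finset.prod_eq_zero (Finset.mem_univ k) (hk (z k)), mul_zero]

theorem tens_inv (P : Matrix (Fin q) (Fin q) K) (hP : IsUnit P.det) :
    tens (fun _ : Fin n => P⁻¹) * tens (fun _ : Fin n => P) = 1 := by
  rw [tens_mul]
  have : (fun _ : Fin n => P⁻¹ * P) = fun _ => 1 := by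
    funext i
    exact Matrix.nonsing_inv_mul _ hP
  rw [this]
  exact tens_one'

theorem conj_inv (m : Fin q → Fin q → Fin q) (P Q : Matrix (Fin q) (Fin q) K)
    (hP : IsUnit P.det) (hQ : IsUnit Q.det) (f : (Fin n → Fin q) → K) :
    MF m f = tens (fun _ : Fin n => P⁻¹) *
      (tens (fun _ : Fin n => P) * MF m f * (tens (fun _ : Fin n => Q))ᵀ) *
        (tens (fun _ : Fin n => Q⁻¹))ᵀ := by
  have h1 := tens_inv (n := n) P hP
  have h2 : (tens (fun _ : Fin n => Q))ᵀ * (tens (fun _ : Fin n => Q⁻¹))ᵀ = 1 := by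
    rw [← Matrix.transpose_mul, tens_inv Q hQ, Matrix.transpose_one]
  calc MF m f = (tens (fun _ : Fin n => P⁻¹) * tens (fun _ : Fin n => P)) * MF m f *
        ((tens (fun _ : Fin n => Q))ᵀ * (tens (fun _ : Fin n => Q⁻¹))ᵀ) := by
        rw [h1, h2, Matrix.one_mul, Matrix.mul_one]
    _ = _ := by simp only [Matrix.mul_assoc]

/-! ### Graded matrices -/

/-- A graded matrix is sparse plus low rank. -/
theorem rs_gr (hn : 0 < n) {M : ℝ} (hM : 0 < M)
    {T : Matrix (∀ _ : Fin n, Fin q) (∀ _ : Fin n, Fin q) K} (h : Gr M T)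
    {l s : ℝ} (hl : 0 < l) (hl1 : l ≤ 1) (hs : 0 ≤ s) :
    RS (Real.exp (s * Real.log (1 / l) + l * q * n))
      (4 * (q : ℝ) ^ n * Real.exp (-(s ^ 2 / (8 * M ^ 2 * n)))) T := by
  have h1 := rs_kron' hM h (k := n) (by simp) (by exact_mod_cast hn) (d := q)
    (fun i => by simp) hl hl1 hs Unit
  have h2 := h1.submatrix (fun x : Fin n → Fin q => (x, ())) (fun x : Fin n → Fin q => (x, ()))
    (fun x y hxy => (Prod.ext_iff.1 hxy).1)
  have h3 : (T ⊗ₖ (1 : Matrix Unit Unit K)).submatrix (fun x : Fin n → Fin q => (x, ()))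
      (fun x : Fin n → Fin q => (x, ())) = T := by
    ext x y
    simp
  rw [h3] at h2
  refine h2.mono le_rfl (le_of_eq ?_)
  simp

theorem gr_lower (L : Matrix (Fin q) (Fin q) K) (hL : ∀ i j, i < j → L i j = 0) :
    Gr (q : ℝ) (tens (fun _ : Fin n => L)) := by
  refine gr_tens _ (fun _ a => (a : ℕ)) (fun _ a => ⟨Nat.cast_nonneg _, Nat.cast_le.2 a.2.le⟩) ?_
  intro i a c h
  by_cases hac : a = c
  · exact Or.inl hac
  · right
    have h1 : ¬ a < c := fun h2 => h (hL a c h2)
    have h2 : c < a := lt_of_le_of_ne (not_lt.1 h1) (Ne.symm hac)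
    exact_mod_cast h2

theorem gr_upper (U : Matrix (Fin q) (Fin q) K) (hU : ∀ i j, j < i → U i j = 0) :
    Gr (q : ℝ) (tens (fun _ : Fin n => U)) := by
  have h1 := (gr_lower (n := n) Uᵀ (fun i j hij => hU j i hij)).transpose
  rw [tens_transpose] at h1
  exact h1

theorem gr_pattern (T : Matrix (∀ _ : Fin n, Fin q) (∀ _ : Fin n, Fin q) K)
    (hT : ∀ x y, T x y ≠ 0 → ∀ k, y k ≤ x k) : Gr (q : ℝ) T := by
  refine ⟨fun _ a => (a : ℕ), fun _ a => ⟨Nat.cast_nonneg _, Nat.cast_le.2 a.2.le⟩, ?_⟩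
  intro x y hxy
  rw [hammingDist_eq_sum, ← Finset.sum_sub_distrib]
  refine Finset.sum_le_sum fun k _ => ?_
  have h1 := hT x y hxy k
  split_ifs with h2
  · have h3 : y k < x k := lt_of_le_of_ne h1 (Ne.symm h2)
    have h4 : ((y k : ℕ) : ℝ) + 1 ≤ ((x k : ℕ) : ℝ) := by exact_mod_cast h3
    linarith
  · have h4 : ((y k : ℕ) : ℝ) ≤ ((x k : ℕ) : ℝ) := by exact_mod_cast h1
    linarith

/-- The triangular case. -/
theorem core_tri (m : Fin q → Fin q → Fin q) (P Q : Matrix (Fin q) (Fin q) K)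
    (hP : IsUnit P.det) (hQ : IsUnit Q.det) (h : ∀ i j, i < j → Rel m P Q i j)
    (hq : 0 < q) (hn : 0 < n) (f : (Fin n → Fin q) → K) {l s : ℝ} (hl : 0 < l) (hl1 : l ≤ 1)
    (hs : 0 ≤ s) :
    RS (Real.exp (s * Real.log (1 / l) + l * q * n) ^ 5)
      (5 * (4 * (q : ℝ) ^ n * Real.exp (-(s ^ 2 / (8 * (q : ℝ) ^ 2 * n))))) (MF m f) := by
  have hq0 : (0 : ℝ) < q := by exact_mod_cast hq
  obtain ⟨σ, L, U, hL, hU, e⟩ := exists_plu q P⁻¹
  obtain ⟨σ', L', U', hL', hU', e'⟩ := exists_plu q Q⁻¹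
  set T := tens (fun _ : Fin n => P) * MF m f * (tens (fun _ : Fin n => Q))ᵀ with hT
  have h1 := rs_gr hn hq0 (gr_lower (n := n) L hL) hl hl1 hs
  have h2 := rs_gr hn hq0 (gr_upper (n := n) U hU) hl hl1 hs
  have h3 := rs_gr hn hq0 (gr_pattern T (by
    intro x y hxy k
    by_contra hlt
    exact hxy (conj_zero m P Q f x y ⟨k, h _ _ (not_le.1 hlt)⟩))) hl hl1 hs
  have h4 := rs_gr hn hq0 (gr_upper (n := n) U' hU').transpose hl hl1 hs
  have h5 := rs_gr hn hq0 (gr_lower (n := n) L' hL').transpose hl hl1 hs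
  set E := Real.exp (s * Real.log (1 / l) + l * q * n) with hE
  have hE0 : 0 ≤ E := (Real.exp_pos _).le
  have h6 := (((h1.mul h2 hE0).mul h3 hE0).mul h4 hE0).mul h5 hE0
  have h7 : MF m f = ((tens (fun _ : Fin n => L) * tens (fun _ : Fin n => U)) * T *
      (tens (fun _ : Fin n => U'))ᵀ * (tens (fun _ : Fin n => L'))ᵀ).submatrix
        (fun x k => σ.symm (x k)) (fun x k => σ'.symm (x k)) := by
    have e1 : tens (fun _ : Fin n => P⁻¹) = (tens (fun _ : Fin n => L) *
        tens (fun _ : Fin n => U)).submatrix (fun x k => σ.symm (x k)) id := by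
      rw [tens_mul]
      ext x y
      simp only [tens, Matrix.submatrix_apply, id_eq]
      refine Finset.prod_congr rfl fun k _ => ?_
      rw [← e]
      simp
    have e2 : tens (fun _ : Fin n => Q⁻¹) = (tens (fun _ : Fin n => L') *
        tens (fun _ : Fin n => U')).submatrix (fun x k => σ'.symm (x k)) id := by
      rw [tens_mul]
      ext x y
      simp only [tens, Matrix.submatrix_apply, id_eq]
      refine Finset.prod_congr rfl fun k _ => ?_
      rw [← e']
      simp
    conv_lhs => rw [conj_inv m P Q hP hQ f]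
    have e3 : ∀ (A C D : Matrix (Fin n → Fin q) (Fin n → Fin q) K)
        (g g' : (Fin n → Fin q) → (Fin n → Fin q)),
        A.submatrix g id * C * D.submatrix id g' = (A * C * D).submatrix g g' :=
      fun _ _ _ _ _ => rfl
    rw [← hT, e1, e2, Matrix.transpose_submatrix, Matrix.transpose_mul, e3]
    simp only [Matrix.mul_assoc]
  rw [h7]
  refine (h6.submatrix _ _ ?_).mono (le_of_eq (by ring)) (le_of_eq (by ring))
  intro x y hxy
  funext k
  exact σ'.symm.injective (congrFun hxy k)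

/-- The case of a large zero pattern. -/
theorem core_unst (m : Fin q → Fin q → Fin q) (P Q : Matrix (Fin q) (Fin q) K)
    (hP : IsUnit P.det) (hQ : IsUnit Q.det) (D₁ D₂ : Finset (Fin q))
    (hD : q < D₁.card + D₂.card) (h : ∀ i ∈ D₁, ∀ j ∈ D₂, Rel m P Q i j)
    (hq : 0 < q) (hn : 0 < n) (f : (Fin n → Fin q) → K) :
    Rk (2 * ((q : ℝ) ^ n * Real.exp (-(n / (32 * (q : ℝ) ^ 2))))) (MF m f) := by
  classical
  have hq0 : (0 : ℝ) < q := by exact_mod_cast hq
  have hn0 : (0 : ℝ) < n := by exact_mod_cast hn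
  set T := tens (fun _ : Fin n => P) * MF m f * (tens (fun _ : Fin n => Q))ᵀ with hT
  -- the weights
  let g : Finset (Fin q) → Fin q → ℝ := fun D a => D.card / q - if a ∈ D then 1 else 0
  have hg : ∀ D a, |g D a| ≤ 1 := by
    intro D a
    have h1 : (D.card : ℝ) / q ≤ 1 := by
      rw [div_le_one hq0]
      exact_mod_cast (Finset.card_le_univ D).trans (by simp)
    have h2 : 0 ≤ (D.card : ℝ) / q := by positivity
    simp only [g]
    rw [abs_le]
    split_ifs <;> constructor <;> linarith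
  have hg0 : ∀ D, ∑ a, g D a = 0 := by
    intro D
    simp only [g, Finset.sum_sub_distrib, Finset.sum_const, Finset.card_univ, Fintype.card_fin,
      nsmul_eq_mul, Finset.sum_ite_mem, Finset.univ_inter]
    field_simp
    ring
  set t : ℝ := n / (4 * q) with ht
  have ht0 : 0 ≤ t := by positivity
  have htail : ∀ D : Finset (Fin q),
      ((Finset.univ.filter fun x : (∀ _ : Fin n, Fin q) => t < ∑ i, g D (x i)).card : ℝ) ≤
        (q : ℝ) ^ n * Real.exp (-(n / (32 * (q : ℝ) ^ 2))) := by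
    intro D
    have h1 := tail (ι := Fin n) (α := fun _ => Fin q) (fun _ => g D) (M := 1) (k := n) one_pos
      (fun _ a => hg D a) (fun _ => hg0 D) (by simp) hn0 ht0
    refine h1.trans (le_of_eq ?_)
    have e1 : (Fintype.card (∀ _ : Fin n, Fin q) : ℝ) = (q : ℝ) ^ n := by simp
    rw [e1]
    congr 2
    rw [ht]
    field_simp
    ring
  set E₁ := Finset.univ.filter fun x : (∀ _ : Fin n, Fin q) => t < ∑ i, g D₁ (x i) with hE₁
  set E₂ := Finset.univ.filter fun x : (∀ _ : Fin n, Fin q) => t < ∑ i, g D₂ (x i) with hE₂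
  have hzero : ∀ x y, x ∉ E₁ → y ∉ E₂ → T x y = 0 := by
    intro x y hx hy
    refine conj_zero m P Q f x y ?_
    by_contra hno
    push Not at hno
    rw [hE₁, Finset.mem_filter] at hx
    rw [hE₂, Finset.mem_filter] at hy
    simp only [Finset.mem_univ, true_and, not_lt] at hx hy
    have h1 : ∀ k, (1 : ℝ) / q - 1 + 1 ≤ g D₁ (x k) + g D₂ (y k) + (1 - 1) + (1 - 1) := by
      intro k
      have h2 : ¬ (x k ∈ D₁ ∧ y k ∈ D₂) := fun h3 => hno k (h _ h3.1 _ h3.2)
      have h3 : ((q : ℝ) + 1) / q ≤ D₁.card / q + D₂.card / q := by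
        rw [← add_div]
        refine div_le_div_of_nonneg_right ?_ hq0.le
        exact_mod_cast hD
      have h4 : ((q : ℝ) + 1) / q = 1 + 1 / q := by
        field_simp
      simp only [g]
      rw [h4] at h3
      by_cases hx1 : x k ∈ D₁
      · have hy1 : y k ∉ D₂ := fun h5 => h2 ⟨hx1, h5⟩
        rw [if_pos hx1, if_neg hy1]
        linarith
      · rw [if_neg hx1]
        split_ifs <;> linarith
    have h2 : ∑ _k : Fin n, ((1 : ℝ) / q - 1 + 1) ≤
        ∑ k : Fin n, (g D₁ (x k) + g D₂ (y k) + (1 - 1) + (1 - 1)) :=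
      Finset.sum_le_sum fun k _ => h1 k
    simp only [Finset.sum_add_distrib, Finset.sum_const, Finset.card_univ, Fintype.card_fin,
      nsmul_eq_mul, sub_self, add_zero, sub_add_cancel] at h2
    have h3 : (n : ℝ) * (1 / q) ≤ t + t := h2.trans (add_le_add hx hy)
    rw [ht] at h3
    have h4 : (n : ℝ) / (4 * q) + n / (4 * q) = n * (1 / q) / 2 := by
      field_simp
      ring
    rw [h4] at h3
    have h5 : 0 < (n : ℝ) * (1 / q) := by positivity
    linarith
  have hR : Rk (2 * ((q : ℝ) ^ n * Real.exp (-(n / (32 * (q : ℝ) ^ 2))))) T := by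
    let R₁ : Matrix (∀ _ : Fin n, Fin q) (∀ _ : Fin n, Fin q) K :=
      Matrix.of fun x y => if x ∈ E₁ then T x y else 0
    let R₂ : Matrix (∀ _ : Fin n, Fin q) (∀ _ : Fin n, Fin q) K :=
      Matrix.of fun x y => if x ∉ E₁ then T x y else 0
    have h0 : T = R₁ + R₂ := by
      ext x y
      simp only [Matrix.add_apply, R₁, R₂, Matrix.of_apply]
      by_cases hx : x ∈ E₁ <;> simp [hx]
    have h1 : Rk (E₁.card : ℝ) R₁ := by
      refine Rk.of_rows _ _ fun x y hxy => ?_
      simp only [R₁, Matrix.of_apply] at hxy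
      by_contra hn
      rw [if_neg hn] at hxy
      exact hxy rfl
    have h2 : Rk (E₂.card : ℝ) R₂ := by
      refine Rk.of_cols _ _ fun x y hxy => ?_
      simp only [R₂, Matrix.of_apply] at hxy
      by_contra hn
      split_ifs at hxy with hx
      · exact hxy rfl
      · exact hxy (hzero x y hx hn)
    rw [h0]
    refine (h1.add h2).mono ?_
    have := htail D₁
    have := htail D₂
    linarith
  rw [conj_inv m P Q hP hQ f]
  exact (hR.mul_left _).mul_right _

end Pool.Agent.TH668.Rig
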