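import Pool.Agent.TH668.Rig.Alg
import Pool.Agent.TH668.Rig.Mat

set_option autoImplicit false
set_option linter.unusedSectionVars false

/-!
# The matrices `f (x y)` on powers of a semigroup with one-dimensional irreducible representations
-/

namespace Pool.Agent.TH668.Rig

open Matrix Finset Module
open Pool.Agent.W967.Rig

/-- The patterns that are used. -/
def Pat {q : ℕ} (K : Type*) [Field K] (m : Fin q → Fin q → Fin q) : Prop :=
  ∃ P Q : Matrix (Fin q) (Fin q) K, IsUnit P.det ∧ IsUnit Q.det ∧
    ((∀ i j, i < j → Rel m P Q i j) ∨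
      ∃ D₁ D₂ : Finset (Fin q), q < D₁.card + D₂.card ∧ ∀ i ∈ D₁, ∀ j ∈ D₂, Rel m P Q i j)

section

variable {K S : Type} [Field K] [Semigroup S] [Fintype S]

theorem lam_apply [DecidableEq S] (s : S) (v : S →₀ K) (z : S) :
    lam K s v z = ∑ t, if s * t = z then v t else 0 := by
  induction v using Finsupp.induction_linear with
  | zero => simp
  | add f g hf hg =>
    rw [map_add, Finsupp.add_apply, hf, hg, ← Finset.sum_add_distrib]
    refine Finset.sum_congr rfl fun t _ => ?_
    split_ifs <;> simp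
  | single t c =>
    rw [lam_single, Finset.sum_eq_single t]
    · rw [Finsupp.single_apply, Finsupp.single_eq_same]
    · intro u _ hu
      rw [Finsupp.single_eq_of_ne hu, ite_self]
    · intro h
      exact absurd (Finset.mem_univ _) h

theorem B_apply [DecidableEq S] (u v : S →₀ K) (z : S) :
    B K S u v z = ∑ s, ∑ t, if s * t = z then u s * v t else 0 := by
  rw [B, Finsupp.linearCombination_apply, Finsupp.sum_fintype _ _ (by simp),
    LinearMap.sum_apply, Finsupp.finsetSum_apply]
  refine Finset.sum_congr rfl fun s _ => ?_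
  rw [LinearMap.smul_apply, Finsupp.smul_apply, lam_apply, smul_eq_mul, Finset.mul_sum]
  refine Finset.sum_congr rfl fun t _ => ?_
  split_ifs <;> simp

/-- The matrix of a family of elements of the semigroup algebra. -/
noncomputable def toMat (e : S ≃ Fin (Fintype.card S)) (a : Fin (Fintype.card S) → (S →₀ K)) :
    Matrix (Fin (Fintype.card S)) (Fin (Fintype.card S)) K :=
  Matrix.of fun i x => a i (e.symm x)

theorem isUnit_toMat (e : S ≃ Fin (Fintype.card S)) (a : Fin (Fintype.card S) → (S →₀ K))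
    (ha : LinearIndependent K a) : IsUnit (toMat e a).det := by
  rw [← Matrix.isUnit_iff_isUnit_det, ← Matrix.linearIndependent_rows_iff_isUnit]
  let g : (S →₀ K) →ₗ[K] (Fin (Fintype.card S) → K) :=
    { toFun := fun v x => v (e.symm x)
      map_add' := fun _ _ => rfl
      map_smul' := fun _ _ => rfl }
  have hg : LinearMap.ker g = ⊥ := by
    rw [LinearMap.ker_eq_bot']
    intro v hv
    ext s
    have h1 : v (e.symm (e s)) = 0 := congrFun hv (e s)
    rwa [Equiv.symm_apply_apply] at h1
  exact ha.map' g hg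

/-- The operation on the indices. -/
def op (e : S ≃ Fin (Fintype.card S)) (x y : Fin (Fintype.card S)) : Fin (Fintype.card S) :=
  e (e.symm x * e.symm y)

theorem rel_toMat (e : S ≃ Fin (Fintype.card S)) (a b : Fin (Fintype.card S) → (S →₀ K))
    (i j : Fin (Fintype.card S)) (h : B K S (a i) (b j) = 0) :
    Rel (op e) (toMat e a) (toMat e b) i j := by
  classical
  intro z
  have h1 : B K S (a i) (b j) (e.symm z) = 0 := by rw [h]; rfl
  rw [B_apply] at h1
  refine Eq.trans ?_ h1
  refine Fintype.sum_equiv e.symm _ _ fun x => ?_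
  refine Fintype.sum_equiv e.symm _ _ fun y => ?_
  have h2 : op e x y = z ↔ e.symm x * e.symm y = e.symm z := by
    rw [op]
    exact (Equiv.eq_symm_apply e).symm
  simp only [h2, toMat, Matrix.of_apply]

theorem exists_basis (U : Submodule K (S →₀ K)) :
    ∃ a : Fin (Fintype.card S) → (S →₀ K), LinearIndependent K a ∧
      ∃ D : Finset (Fin (Fintype.card S)), D.card = finrank K U ∧ ∀ i ∈ D, a i ∈ U := by
  classical
  have h3 : finrank K (S →₀ K) = Fintype.card S := by simp
  obtain ⟨U', hU'⟩ := Submodule.exists_isCompl U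
  have : Module.Free K U := Module.Free.of_divisionRing K U
  have : Module.Free K U' := Module.Free.of_divisionRing K U'
  let b := ((Module.finBasis K U).prod (Module.finBasis K U')).map (U.prodEquivOfIsCompl U' hU')
  have hc : Fintype.card (Fin (finrank K U) ⊕ Fin (finrank K U')) = Fintype.card S := by
    rw [← h3, Module.finrank_eq_card_basis b]
  let g := Fintype.equivFinOfCardEq hc
  refine ⟨fun i => b (g.symm i), b.linearIndependent.comp _ g.symm.injective,
    Finset.univ.map ⟨fun i : Fin (finrank K U) => g (Sum.inl i), fun i j hij => by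
      simpa using hij⟩, by simp, ?_⟩
  intro i hi
  rw [Finset.mem_map] at hi
  obtain ⟨j, -, rfl⟩ := hi
  change b (g.symm (g (Sum.inl j))) ∈ U
  rw [Equiv.symm_apply_apply]
  simp [b]

theorem pat_of_oneDim (h : OneDim K S) (e : S ≃ Fin (Fintype.card S)) : Pat K (op e) := by
  rcases dichotomy h with ⟨U, V, h1, h2⟩ | ⟨a, b, ha, hb, hab⟩
  · obtain ⟨a, ha, D₁, hD₁, hD₁'⟩ := exists_basis U
    obtain ⟨b, hb, D₂, hD₂, hD₂'⟩ := exists_basis V
    exact ⟨toMat e a, toMat e b, isUnit_toMat e a ha, isUnit_toMat e b hb,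
      Or.inr ⟨D₁, D₂, by rw [hD₁, hD₂]; exact h2, fun i hi j hj =>
        rel_toMat e a b i j (h1 _ (hD₁' i hi) _ (hD₂' j hj))⟩⟩
  · exact ⟨toMat e a, toMat e b, isUnit_toMat e a ha, isUnit_toMat e b hb,
      Or.inl fun i j hij => rel_toMat e a b i j (hab i j hij)⟩

end

/-! ### Descent -/

theorem pat_descend {F K : Type} [Field F] [Field K] [Algebra F K] [Algebra.IsAlgebraic F K]
    {q : ℕ} {m : Fin q → Fin q → Fin q} (h : Pat K m) :
    ∃ L : IntermediateField F K, FiniteDimensional F L ∧ Pat L m := by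
  classical
  obtain ⟨P, Q, hP, hQ, h⟩ := h
  let A : Set K := Set.range (fun p : Fin q × Fin q => P p.1 p.2) ∪
    Set.range (fun p : Fin q × Fin q => Q p.1 p.2)
  have hA : A.Finite := (Set.finite_range _).union (Set.finite_range _)
  let L := IntermediateField.adjoin F A
  have hfin : FiniteDimensional F L := by
    have : Finite A := hA
    exact IntermediateField.finiteDimensional_adjoin
      fun x _ => Algebra.IsIntegral.isIntegral x
  have hsub : A ⊆ L := IntermediateField.subset_adjoin F A
  have hPm : ∀ i j, P i j ∈ L := fun i j => hsub (Or.inl ⟨(i, j), rfl⟩)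
  have hQm : ∀ i j, Q i j ∈ L := fun i j => hsub (Or.inr ⟨(i, j), rfl⟩)
  let P' : Matrix (Fin q) (Fin q) L := Matrix.of fun i j => ⟨P i j, hPm i j⟩
  let Q' : Matrix (Fin q) (Fin q) L := Matrix.of fun i j => ⟨Q i j, hQm i j⟩
  have eP : P = P'.map (algebraMap L K) := by ext i j; rfl
  have eQ : Q = Q'.map (algebraMap L K) := by ext i j; rfl
  have hP' : IsUnit P'.det := by
    rw [isUnit_iff_ne_zero] at hP ⊢
    intro h0
    refine hP ?_
    rw [eP]
    change ((algebraMap L K).mapMatrix P').det = 0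
    rw [← RingHom.map_det, h0, map_zero]
  have hQ' : IsUnit Q'.det := by
    rw [isUnit_iff_ne_zero] at hQ ⊢
    intro h0
    refine hQ ?_
    rw [eQ]
    change ((algebraMap L K).mapMatrix Q').det = 0
    rw [← RingHom.map_det, h0, map_zero]
  have hrel : ∀ i j, Rel m P Q i j → Rel m P' Q' i j := by
    intro i j hr z
    apply (algebraMap L K).injective
    rw [map_zero, ← hr z, map_sum]
    refine Finset.sum_congr rfl fun x _ => ?_
    rw [map_sum]
    refine Finset.sum_congr rfl fun y _ => ?_
    split_ifs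
    · rfl
    · rw [map_zero]
  refine ⟨L, hfin, P', Q', hP', hQ', ?_⟩
  rcases h with h | ⟨D₁, D₂, h1, h2⟩
  · exact Or.inl fun i j hij => hrel i j (h i j hij)
  · exact Or.inr ⟨D₁, D₂, h1, fun i hi j hj => hrel i j (h2 i hi j hj)⟩

/-! ### Numbers -/

theorem rs_pat {L : Type} [Field L] {q : ℕ} (hq : 2 ≤ q) {m : Fin q → Fin q → Fin q}
    (h : Pat L m) {ε : ℝ} (hε : 0 < ε) :
    ∃ κ : ℝ, 0 < κ ∧ ∀ n : ℕ, 0 < n → ∀ f : (Fin n → Fin q) → L,
      RS (Real.exp (ε * Real.log q * n)) (20 * ((q : ℝ) ^ n * Real.exp (-(κ * n)))) (MF m f) := by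
  classical
  obtain ⟨P, Q, hP, hQ, h⟩ := h
  have hq0 : (0 : ℝ) < q := by exact_mod_cast (by omega : 0 < q)
  have hc0 : 0 < Real.log q := Real.log_pos (by exact_mod_cast (by omega : 1 < q))
  set c := Real.log q with hc
  rcases h with h | ⟨D₁, D₂, h1, h2⟩
  · set l := min 1 (ε * c / (10 * q)) with hl
    have hl0 : 0 < l := lt_min one_pos (by positivity)
    have hl1 : l ≤ 1 := min_le_left _ _
    have hl2 : l ≤ ε * c / (10 * q) := min_le_right _ _
    have hL : 0 ≤ Real.log (1 / l) := Real.log_nonneg (by rw [le_div_iff₀ hl0]; linarith)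
    set η := ε * c / (10 * (Real.log (1 / l) + 1)) with hη
    have hη0 : 0 < η := by positivity
    refine ⟨η ^ 2 / (8 * (q : ℝ) ^ 2), by positivity, fun n hn f => ?_⟩
    have hn0 : (0 : ℝ) < n := by exact_mod_cast hn
    refine (core_tri m P Q hP hQ h (by omega) hn f hl0 hl1 (s := η * n) (by positivity)).mono ?_ ?_
    · rw [← Real.exp_nat_mul]
      refine Real.exp_le_exp.2 ?_
      have e1 : 5 * (l * q) ≤ ε * c / 2 := by
        have : l * q ≤ ε * c / (10 * q) * q := mul_le_mul_of_nonneg_right hl2 hq0.le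
        have e2 : ε * c / (10 * q) * q = ε * c / 10 := by
          field_simp
        rw [e2] at this
        linarith
      have e2 : 5 * (η * Real.log (1 / l)) ≤ ε * c / 2 := by
        have e3 : η * Real.log (1 / l) ≤ η * (Real.log (1 / l) + 1) :=
          mul_le_mul_of_nonneg_left (by linarith) hη0.le
        have e4 : η * (Real.log (1 / l) + 1) = ε * c / 10 := by
          rw [hη]
          field_simp
        rw [e4] at e3
        linarith
      have e3 : (5 * (l * q) + 5 * (η * Real.log (1 / l))) * n ≤ (ε * c / 2 + ε * c / 2) * n :=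
        mul_le_mul_of_nonneg_right (add_le_add e1 e2) hn0.le
      push_cast
      linarith
    · have e1 : (η * (n : ℝ)) ^ 2 / (8 * (q : ℝ) ^ 2 * n) = η ^ 2 / (8 * (q : ℝ) ^ 2) * n := by
        field_simp
      rw [e1]
      linarith
  · refine ⟨1 / (32 * (q : ℝ) ^ 2), by positivity, fun n hn f => ?_⟩
    have h3 := core_unst m P Q hP hQ D₁ D₂ h1 h2 (by omega) hn f
    refine ⟨0, MF m f, by rw [zero_add], h3.mono ?_, fun x => ?_⟩
    · have e1 : (n : ℝ) / (32 * (q : ℝ) ^ 2) = 1 / (32 * (q : ℝ) ^ 2) * n := by ring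
      rw [e1]
      have : 0 ≤ (q : ℝ) ^ n * Real.exp (-(1 / (32 * (q : ℝ) ^ 2) * n)) := by positivity
      linarith
    · simp
      positivity

/-- **Main theorem.** -/
theorem main (F S : Type) [Field F] [Semigroup S] [Fintype S] (h2 : 2 ≤ Fintype.card S)
    (hS : OneDim (AlgebraicClosure F) S) {δ : ℝ} (hδ : 0 < δ) :
    ∃ γ : ℝ, 0 < γ ∧ ∃ n₀ : ℕ, ∀ n : ℕ, n₀ ≤ n → ∀ f : (Fin n → S) → F,
      RS (((Fintype.card S : ℝ) ^ n) ^ δ) (((Fintype.card S : ℝ) ^ n) ^ (1 - γ))
        (Matrix.of fun x y : Fin n → S => f (x * y)) := by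
  classical
  let e : S ≃ Fin (Fintype.card S) := Fintype.equivFin S
  obtain ⟨L, hfin, hpat⟩ := pat_descend (F := F) (pat_of_oneDim hS e)
  obtain ⟨κ, hκ, h⟩ := rs_pat h2 hpat hδ
  set d := finrank F L with hd
  have hq0 : (0 : ℝ) < Fintype.card S := by exact_mod_cast (by omega : 0 < Fintype.card S)
  have hc0 : 0 < Real.log (Fintype.card S) :=
    Real.log_pos (by exact_mod_cast (by omega : 1 < Fintype.card S))
  refine ⟨κ / (2 * Real.log (Fintype.card S)), by positivity, max 1 ⌈40 * d / κ⌉₊,
    fun n hn f => ?_⟩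
  have hn1 : 0 < n := lt_of_lt_of_le one_pos ((le_max_left _ _).trans hn)
  have hn2 : (40 * d / κ : ℝ) ≤ n :=
    (Nat.le_ceil _).trans (by exact_mod_cast (le_max_right _ _).trans hn)
  have hqn : (Fintype.card S : ℝ) ^ n = Real.exp (Real.log (Fintype.card S) * n) := by
    rw [mul_comm, Real.exp_nat_mul, Real.exp_log hq0]
  have hpow : ∀ t : ℝ, ((Fintype.card S : ℝ) ^ n) ^ t =
      Real.exp (t * Real.log (Fintype.card S) * n) := by
    intro t
    rw [hqn, ← Real.exp_mul]
    congr 1
    ring
  let f' : (Fin n → Fin (Fintype.card S)) → F := fun z => f fun k => e.symm (z k)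
  have h3 := h n hn1 (fun z => algebraMap F L (f' z))
  have h4 : MF (op e) (fun z => algebraMap F L (f' z)) = (MF (op e) f').map (algebraMap F L) := rfl
  rw [h4] at h3
  have h5 := h3.descend
  have h6 := h5.submatrix (fun (x : Fin n → S) k => e (x k)) (fun (x : Fin n → S) k => e (x k))
    (fun x y hxy => funext fun k => e.injective (congrFun hxy k))
  have h7 : (MF (op e) f').submatrix (fun (x : Fin n → S) k => e (x k))
      (fun (x : Fin n → S) k => e (x k)) = Matrix.of fun x y : Fin n → S => f (x * y) := by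
    ext x y
    simp only [MF, op, f', Matrix.submatrix_apply, Matrix.of_apply, Equiv.symm_apply_apply]
    rfl
  rw [h7] at h6
  refine h6.mono ?_ ?_
  · rw [hpow]
  · rw [hpow, hqn]
    have e1 : (20 : ℝ) * d ≤ Real.exp (κ / 2 * n) := by
      have e2 : 20 * (d : ℝ) ≤ κ / 2 * n := by
        rw [div_le_iff₀ hκ] at hn2
        linarith
      exact e2.trans ((by linarith : κ / 2 * n ≤ κ / 2 * n + 1).trans (Real.add_one_le_exp _))
    have e3 : (1 - κ / (2 * Real.log (Fintype.card S))) * Real.log (Fintype.card S) * n =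
        Real.log (Fintype.card S) * n + -(κ * n) + κ / 2 * n := by
      field_simp
      ring
    rw [e3, Real.exp_add, Real.exp_add]
    have e4 : 0 ≤ Real.exp (Real.log (Fintype.card S) * n) * Real.exp (-(κ * n)) := by positivity
    have e5 := mul_le_mul_of_nonneg_left e1 e4
    calc 20 * (Real.exp (Real.log (Fintype.card S) * n) * Real.exp (-(κ * n))) * (d : ℝ)
        = Real.exp (Real.log (Fintype.card S) * n) * Real.exp (-(κ * n)) * (20 * d) := by ring
      _ ≤ _ := e5

end Pool.Agent.TH668.Rig
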